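import Pool.Agent.H23.RDD.Targets

set_option autoImplicit false

/-!
# (RED) a power of a number with few conjugates is reduced
-/

namespace Pool.Agent.H99.RDD

open Pool.Agent.H23.RDD Pool.Agent.H24.RD NumberField Height Finset Polynomial

theorem pf_RED : T_LVB → T_MON → T_RED := by
  classical
  intro hLVB _ F Ω _ _ _ _ _ _ _ r γ hγ N K d hN hK hd β hβ hC
  obtain ⟨s, hs, hsC⟩ := hC
  have hK0 : 0 < K := Nat.pos_of_dvd_of_pos hK hN
  have hex : ∀ x : Ω, ∃ k : ℕ, 0 < k ∧ ((∃ l : ℕ, 0 < l ∧ x ^ l = β ^ l) → x ^ k = β ^ k) := by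
    intro x
    by_cases h : ∃ l : ℕ, 0 < l ∧ x ^ l = β ^ l
    · obtain ⟨l, hl, hx⟩ := h
      exact ⟨l, hl, fun _ => hx⟩
    · exact ⟨1, one_pos, fun h' => absurd h' h⟩
  choose o ho hox using hex
  have hP : 0 < ∏ x ∈ s, o x := Finset.prod_pos fun x _ => ho x
  have hN1 : 0 < N * ∏ x ∈ s, o x := Nat.mul_pos hN hP
  have hle : Lv F Ω γ N K ≤ Lv F Ω γ (N * ∏ x ∈ s, o x) K :=
    (hLVB F Ω r γ hγ N K hN hK0).2.2.2.2.2 _ _ (Dvd.intro _ rfl) dvd_rfl
      (hK.trans (Dvd.intro _ rfl)) hN1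
  refine ⟨N * ∏ x ∈ s, o x, hN1, hK.trans (Dvd.intro _ rfl), ?_, ?_⟩
  · refine ⟨s.image fun x => x ^ d.factorial, Finset.card_image_le.trans hs, ?_⟩
    intro σ hσ
    rw [Finset.mem_image]
    exact ⟨σ β, hsC σ fun z hz => hσ z (hle hz), by rw [map_pow]⟩
  · intro σ hσ k hk hpow
    have hσs : σ β ∈ s := hsC σ fun z hz => hσ z (hle hz)
    have hroot : (σ β) ^ (o (σ β)) = β ^ (o (σ β)) := by
      refine hox (σ β) ⟨d.factorial * k, Nat.mul_pos (Nat.factorial_pos d) hk, ?_⟩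
      rw [map_pow] at hpow
      rw [pow_mul, pow_mul, hpow]
    set ρ : Ω := σ β / β with hρ
    have hρ1 : ρ ^ (N * ∏ x ∈ s, o x) = 1 := by
      have h1 : ρ ^ (o (σ β)) = 1 := by
        rw [hρ, div_pow, hroot, div_self (pow_ne_zero _ hβ)]
      obtain ⟨c, hc⟩ : o (σ β) ∣ N * ∏ x ∈ s, o x :=
        (Finset.dvd_prod_of_mem o hσs).trans (Dvd.intro_left _ rfl)
      rw [hc, pow_mul, h1, one_pow]
    have hσβ : σ β = ρ * β := by
      rw [hρ, div_mul_cancel₀ _ hβ]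
    have hρm : ρ ∈ Lv F Ω γ (N * ∏ x ∈ s, o x) K :=
      IntermediateField.subset_adjoin _ _ (Or.inl hρ1)
    have hσρ : σ ρ = ρ := hσ ρ hρm
    have hit : ∀ j : ℕ, ∃ τ : Ω ≃ₐ[F] Ω, (∀ z ∈ Lv F Ω γ N K, τ z = z) ∧ τ β = ρ ^ j * β := by
      intro j
      induction j with
      | zero => exact ⟨AlgEquiv.refl, fun z _ => rfl, by simp⟩
      | succ j ih =>
        obtain ⟨τ, hτ, hτβ⟩ := ih
        refine ⟨τ.trans σ, fun z hz => ?_, ?_⟩
        · rw [AlgEquiv.trans_apply, hτ z hz]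
          exact hσ z (hle hz)
        · rw [AlgEquiv.trans_apply, hτβ, map_mul, map_pow, hσρ, hσβ, pow_succ, mul_assoc]
    have hmem : ∀ j : ℕ, ρ ^ j * β ∈ s := by
      intro j
      obtain ⟨τ, hτ, hτβ⟩ := hit j
      rw [← hτβ]
      exact hsC τ hτ
    have hopos : 0 < orderOf ρ := orderOf_pos_iff.mpr
      (isOfFinOrder_iff_pow_eq_one.mpr ⟨_, hN1, hρ1⟩)
    have hcard : orderOf ρ ≤ s.card := by
      have h1 : (Finset.range (orderOf ρ)).card ≤ s.card := by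
        refine Finset.card_le_card_of_injOn (fun j => ρ ^ j * β) (fun j _ => hmem j) ?_
        intro a ha b hb hab
        have hab' : ρ ^ a = ρ ^ b := mul_right_cancel₀ hβ hab
        have ha' : a < orderOf ρ := by simpa using ha
        have hb' : b < orderOf ρ := by simpa using hb
        exact pow_injOn_Iio_orderOf ha' hb' hab'
      simpa using h1
    have hdvd : orderOf ρ ∣ d.factorial := Nat.dvd_factorial hopos (hcard.trans hs)
    have hρe : ρ ^ d.factorial = 1 := orderOf_dvd_iff_pow_eq_one.mp hdvd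
    rw [map_pow, hσβ, mul_pow, hρe, one_mul]

end Pool.Agent.H99.RDD
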